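import Pool.Agent.H354.BG.Stm

set_option autoImplicit false

/-! Project BG, tasks NBDX and UNIJ (helper47): bound for the position of the near point and
uniqueness of the near point. -/

namespace Pool.Agent.H47.BG.NBD

open Pool.Agent.H354.BG
open Pool.Agent.H482R3.EA (W inv ev PP xx evF cond1 cond2 Syl gOf Sys St Near InD Adm Act)
open Pool.Agent.H482R3.EB (tot wp alt rels AR gR TR Tame Symm alt_length)

lemma inv_length {S : Type} (u : W S) : (inv u).length = u.length := by
  simp [inv]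

theorem t_NBDX : S_NBDX := by
  intro D U b hb v w w' g' g j hc hc' hww hd
  obtain ⟨i, h₁, h₂, hh₁, hh₂, he⟩ := hd
  rw [gEl_append, gEl_wp] at he
  have hwZ := w_notMem_Z D U b hc
  have hw'Z := w_notMem_Z D U b hc'
  by_cases hcc : D.β w = D.β w'
  · -- the same block
    have hdis : Disjoint ({D.β w} : Finset (Fin D.r)) (pZ D U b) :=
      Finset.disjoint_singleton_left.mpr hwZ
    have h1 := congrArg (rho D {D.β w}) he
    rw [rho_rho_sub D (Finset.singleton_subset_iff.mpr hc.2.1)] at h1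
    simp only [map_mul, map_inv] at h1
    rw [rho_disj D hdis hh₁, rho_disj D hdis hh₂, one_mul, mul_one,
      rho_zpow_in D (w := w) (Finset.mem_singleton_self _),
      rho_zpow_in D (w := w') (by rw [hcc]; exact Finset.mem_singleton_self _), rho_gEl, rho_gEl,
      ← gEl_inv] at h1
    have h2 : ev (gR D.m) (inv (flt D {D.β w} g') ++ flt D {D.β w} g) =
        gR D.m w' ^ i * gR D.m w ^ (-j) := by
      have h3 : gEl D (inv (flt D {D.β w} g') ++ flt D {D.β w} g) * gR D.m w ^ j =
          gR D.m w' ^ i := by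
        rw [gEl_append, ← h1, mul_assoc]
      rw [zpow_neg]
      exact eq_mul_inv_of_mul_eq h3
    have h4 := (tame D).bd w' w i (-j) _ (Ne.symm hww) h2
    rw [List.length_append, inv_length, abs_neg] at h4
    have h5 := abs_nonneg i
    have h6 : ((flt D {D.β w} g').length : ℤ) ≤ g'.length := by
      exact_mod_cast flt_length D _ g'
    have h7 : ((flt D {D.β w} g).length : ℤ) ≤ g.length := by
      exact_mod_cast flt_length D _ g
    push_cast at h4 ⊢
    linarith
  · -- different blocks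
    have h1 := congrArg (eg D (D.β w)) he
    rw [eg_rho, if_pos hc.2.1, eg_mul, eg_mul, eg_mul, eg_mul, eg_inv, eg_gR_zpow,
      eg_par D hwZ hh₁, eg_par D hwZ hh₂, eg_zpow, eg_gR, if_neg (fun h => hcc h.symm)] at h1
    have h2 := abs_le.mp (abs_eg_le D (D.β w) g')
    have h3 := abs_le.mp (abs_eg_le D (D.β w) g)
    have h4 : j = eg D (D.β w) (gEl D g') - eg D (D.β w) (gEl D g) := by linarith
    push_cast
    rw [abs_le]
    constructor <;> linarith [h2.1, h2.2, h3.1, h3.2]

theorem t_UNIJ (hdic : S_DICX) : S_UNIJ := by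
  intro D U b hb h g v w s j j' hs hc hD hN hN'
  have hv := hc.1
  have h1 := ((hdic D U b hb h s (g ++ wp w j) hs).1 v hv).mp hN
  have h2 := ((hdic D U b hb h s (g ++ wp w j') hs).1 v hv).mp hN'
  have h3 := fun hh => hD (((hdic D U b hb h s g hs).2.2 v w hc).mpr hh)
  have hI : ∀ i : ℤ, Ix D U b ((QuotientGroup.mk (gEl D (g ++ wp w i)), ⟨v, hv⟩) : Pt D U b)
      (Sum.inr ⟨(⟨(v, w), hc⟩ : LI D U b), QuotientGroup.mk (gEl D g)⟩ : Ln D U b) := by
    intro i
    refine ⟨rfl, gEl D (g ++ wp w i), rfl, ?_⟩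
    show (QuotientGroup.mk (gEl D g) : D.A ⧸ Hw D U b w) = QuotientGroup.mk (gEl D (g ++ wp w i))
    rw [QuotientGroup.eq, gEl_append, gEl_wp, inv_mul_cancel_left, mem_Hw]
    exact ⟨i, 1, Subgroup.one_mem _, by rw [rho_zpow_in D hc.2.1, mul_one]⟩
  have h4 := Pool.Agent.H482R3.EB.Asm.uni (sysX D U b h) (stO D U b h s)
    (Sum.inr ⟨(⟨(v, w), hc⟩ : LI D U b), QuotientGroup.mk (gEl D g)⟩ : Ln D U b) _ _ h3 (hI j) h1
    (hI j') h2
  have h5 : (QuotientGroup.mk (gEl D (g ++ wp w j)) : D.A ⧸ H0 D U b) =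
      QuotientGroup.mk (gEl D (g ++ wp w j')) := congrArg Prod.fst h4
  rw [QuotientGroup.eq, gEl_append, gEl_append, gEl_wp, gEl_wp] at h5
  have h6 := eg_H0 D U b hc h5
  rw [eg_mul, eg_inv, eg_mul, eg_mul, eg_gR_zpow, eg_gR_zpow] at h6
  linarith

end Pool.Agent.H47.BG.NBD
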